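import Pool.Agent.H63.CM.Defs

/-!
# Long gaps (helper41): `gaps` from `num_gap`
-/

set_option autoImplicit false

open Filter Real MeasureTheory ProbabilityTheory

namespace Pool.Agent.H63.CM

namespace GapMain

theorem prod_compl {Ω : Type*} [MeasurableSpace Ω] {μ : Measure Ω} {A : ℕ → Set Ω} (h : iIndepSet A μ) (s : Finset ℕ) :
    μ (⋂ m ∈ s, (A m)ᶜ) = ∏ m ∈ s, μ (A m)ᶜ := by
  have h1 := (iIndepSet_iff_iIndep A μ).mp h
  refine h1.meas_biInter (fun m _ => ?_)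
  exact (MeasurableSpace.measurableSet_generateFrom (Set.mem_singleton _)).compl

theorem log_le (j : ℕ) (hj : 1 ≤ j) : (log (j ^ 2 : ℕ)) ^ 2 / 4 = (log j) ^ 2 := by
  push_cast
  rw [Real.log_pow]
  push_cast
  ring

theorem ev_log : ∀ᶠ j : ℕ in atTop, (log (j ^ 2 : ℕ)) ^ 2 / 4 ≤ 2 * (j : ℝ) - 1 := by
  have h1 : ∀ᶠ x : ℝ in atTop, ‖log x ^ 2‖ ≤ 1 * ‖(id x : ℝ)‖ :=
    (Real.isLittleO_pow_log_id_atTop (n := 2)).bound one_pos
  have h2 := tendsto_natCast_atTop_atTop (R := ℝ) |>.eventually h1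
  filter_upwards [h2, eventually_ge_atTop 1] with j hj hj1
  rw [log_le j hj1]
  have h3 : (1 : ℝ) ≤ j := by exact_mod_cast hj1
  simp only [id, one_mul, Real.norm_eq_abs, abs_pow, sq_abs] at hj
  rw [abs_of_nonneg (by linarith)] at hj
  linarith

open Classical in
/-- the block below `j ^ 2` -/
noncomputable def B (j0 j : ℕ) : Finset ℕ :=
  if j0 ≤ j then (Finset.range (j ^ 2)).filter (fun m => 3 ≤ m ∧ ((j ^ 2 : ℕ) : ℝ) - m < (log (j ^ 2 : ℕ)) ^ 2 / 4) else ∅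

theorem mem_B {j0 j m : ℕ} : m ∈ B j0 j ↔ j0 ≤ j ∧ m < j ^ 2 ∧ 3 ≤ m ∧ ((j ^ 2 : ℕ) : ℝ) - m < (log (j ^ 2 : ℕ)) ^ 2 / 4 := by
  unfold B
  split_ifs with h
  · simp [h]
  · simp [h]

theorem B_disj {j0 : ℕ} (h0 : 1 ≤ j0) (h : ∀ j, j0 ≤ j → (log (j ^ 2 : ℕ)) ^ 2 / 4 ≤ 2 * (j : ℝ) - 1) {i j : ℕ} (hij : i < j) :
    Disjoint (B j0 i) (B j0 j) := by
  rw [Finset.disjoint_left]
  intro m hi hj
  obtain ⟨h1, h2, h3, h4⟩ := mem_B.mp hi
  obtain ⟨h5, h6, h7, h8⟩ := mem_B.mp hj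
  have h9 := h j h5
  have h10 : m < (j - 1) ^ 2 := lt_of_lt_of_le h2 (Nat.pow_le_pow_left (by omega) 2)
  have h11 : (m : ℝ) < ((j : ℝ) - 1) ^ 2 := by
    have : ((m : ℕ) : ℝ) < (((j - 1) ^ 2 : ℕ) : ℝ) := by exact_mod_cast h10
    push_cast [Nat.cast_sub (show 1 ≤ j by omega)] at this
    exact this
  have hc : ((j ^ 2 : ℕ) : ℝ) = (j : ℝ) ^ 2 := by push_cast; ring
  rw [hc] at h8 h9
  nlinarith

end GapMain

open GapMain in
theorem gaps_of (hnum : ∀ᶠ j : ℕ in atTop, ∀ B : Finset ℕ,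
      (∀ m ∈ B, m < j ^ 2 ∧ ((j ^ 2 : ℕ) : ℝ) - m < (log (j ^ 2 : ℕ)) ^ 2 / 4) →
      (j : ℝ) ^ (-(2 / 3) : ℝ) ≤ ∏ m ∈ B, (1 - 1 / log m))
    {Ω : Type*} [MeasurableSpace Ω] {μ : Measure Ω} [IsProbabilityMeasure μ] {P : Ω → Set ℕ} (h : IsCramer μ P) :
    ∀ᵐ ω ∂μ, ∃ᶠ n : ℕ in atTop, ∀ m ∈ P ω, m < n → (log n) ^ 2 / 4 ≤ (n : ℝ) - m := by
  obtain ⟨j0, hj0⟩ := eventually_atTop.mp ((hnum.and ev_log).and (eventually_ge_atTop 3))
  have hj3 : 3 ≤ j0 := (hj0 j0 le_rfl).2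
  have hlog : ∀ j, j0 ≤ j → (log (j ^ 2 : ℕ)) ^ 2 / 4 ≤ 2 * (j : ℝ) - 1 := fun j hj => (hj0 j hj).1.2
  set A : ℕ → Set Ω := fun m => {ω | m ∈ P ω} with hA
  set E : ℕ → Set Ω := fun j => ⋂ m ∈ B j0 j, (A m)ᶜ with hE
  have hEm : ∀ j, MeasurableSet (E j) := fun j => by
    refine Finset.measurableSet_biInter _ (fun m _ => (h.meas m).compl)
  have hdisj : ∀ i j, i ≠ j → Disjoint (B j0 i) (B j0 j) := by
    intro i j hij
    rcases lt_or_gt_of_ne hij with h1 | h1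
    · exact B_disj (by omega) hlog h1
    · exact (B_disj (by omega) hlog h1).symm
  have hEi : iIndepSet E μ := by
    rw [iIndepSet_iff_meas_biInter hEm]
    intro s
    have h1 : ⋂ j ∈ s, E j = ⋂ m ∈ s.biUnion (B j0), (A m)ᶜ := by
      ext ω
      simp only [hE, Set.mem_iInter, Finset.mem_biUnion]
      constructor
      · rintro h2 m ⟨j, hj, hm⟩
        exact h2 j hj m hm
      · intro h2 j hj m hm
        exact h2 m ⟨j, hj, hm⟩
    rw [h1, prod_compl h.indep, Finset.prod_biUnion (fun i _ j _ hij => hdisj i j hij)]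
    exact Finset.prod_congr rfl (fun j _ => (prod_compl h.indep _).symm)
  have hlow : ∀ j, j0 ≤ j → (j : ℝ) ^ (-(2 / 3) : ℝ) ≤ (μ (E j)).toReal := by
    intro j hj
    have h1 : μ (E j) = ENNReal.ofReal (∏ m ∈ B j0 j, (1 - 1 / log m)) := by
      have h2 : ∀ m ∈ B j0 j, 0 ≤ 1 - 1 / log (m : ℝ) := by
        intro m hm
        have h3 : (3 : ℝ) ≤ m := by exact_mod_cast (mem_B.mp hm).2.2.1
        have h4 : 1 ≤ log (m : ℝ) := by
          rw [Real.le_log_iff_exp_le (by linarith)]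
          linarith [Real.exp_one_lt_d9]
        have h5 : 1 / log (m : ℝ) ≤ 1 := by
          rw [div_le_one (by linarith)]
          exact h4
        linarith
      rw [show μ (E j) = ∏ m ∈ B j0 j, μ (A m)ᶜ from prod_compl h.indep _,
        ENNReal.ofReal_prod_of_nonneg h2]
      refine Finset.prod_congr rfl (fun m hm => ?_)
      rw [prob_compl_eq_one_sub (h.meas m), h.prob m (mem_B.mp hm).2.2.1]
      have h3 : (0 : ℝ) ≤ 1 / log (m : ℝ) := by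
        have h3 : (3 : ℝ) ≤ m := by exact_mod_cast (mem_B.mp hm).2.2.1
        exact one_div_nonneg.mpr (Real.log_nonneg (by linarith))
      rw [ENNReal.ofReal_sub _ h3, ENNReal.ofReal_one]
    have h6 := (hj0 j hj).1.1 (B j0 j) (fun m hm => ⟨(mem_B.mp hm).2.1, (mem_B.mp hm).2.2.2⟩)
    have h7 : (0 : ℝ) ≤ (j : ℝ) ^ (-(2 / 3) : ℝ) := Real.rpow_nonneg (Nat.cast_nonneg _) _
    rw [h1, ENNReal.toReal_ofReal (h7.trans h6)]
    exact h6
  have hsum : (∑' j, μ (E j)) = ⊤ := by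
    by_contra hne
    have h1 := ENNReal.summable_toReal hne
    have h2 : Summable (fun j : ℕ => (j : ℝ) ^ (-(2 / 3) : ℝ)) := by
      refine Summable.of_norm_bounded_eventually_nat h1 ?_
      filter_upwards [eventually_ge_atTop j0] with j hj
      rw [Real.norm_of_nonneg (Real.rpow_nonneg (Nat.cast_nonneg _) _)]
      exact hlow j hj
    rw [Real.summable_nat_rpow] at h2
    norm_num at h2
  have hone := measure_limsup_eq_one hEm hEi hsum
  have hms : MeasurableSet (limsup E atTop) := MeasurableSet.measurableSet_limsup hEm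
  have hae : ∀ᵐ ω ∂μ, ω ∈ limsup E atTop := (mem_ae_iff_prob_eq_one hms).mpr hone
  filter_upwards [hae] with ω hω
  have hfr := Filter.mem_limsup_iff_frequently_mem.mp hω
  have hfr2 := hfr.and_eventually (eventually_ge_atTop j0)
  have hfr3 : ∃ᶠ j : ℕ in atTop, ∀ m ∈ P ω, m < j ^ 2 → (log (j ^ 2 : ℕ)) ^ 2 / 4 ≤ ((j ^ 2 : ℕ) : ℝ) - m := by
    refine hfr2.mono ?_
    rintro j ⟨hjE, hj⟩ m hm hmj
    by_contra hcon
    push_neg at hcon
    by_cases hm3 : 3 ≤ m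
    · have h1 : m ∈ B j0 j := mem_B.mpr ⟨hj, hmj, hm3, hcon⟩
      have h2 := Set.mem_iInter₂.mp hjE m h1
      exact h2 hm
    · have h1 := hlog j hj
      have h2 : (m : ℝ) < 3 := by exact_mod_cast (by omega : m < 3)
      have h3 : (3 : ℝ) ≤ j := by exact_mod_cast (hj3.trans hj)
      have hc : ((j ^ 2 : ℕ) : ℝ) = (j : ℝ) ^ 2 := by push_cast; ring
      rw [hc] at hcon h1
      nlinarith
  exact (tendsto_pow_atTop (two_ne_zero)).frequently hfr3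

end Pool.Agent.H63.CM
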